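import Pool.Agent.H14.GB.GAL

/-!
# Gallagher's inequality for Dirichlet polynomials
-/

set_option autoImplicit false

open MeasureTheory Set
open scoped ENNReal

namespace Pool.Agent.H14.GB

/-- the substitution `t = c x` on an interval -/
theorem lint_scale (f : ℝ → ℝ≥0∞) (c b : ℝ) (hc : 0 < c) :
    ∫⁻ t in Icc (-(c * b)) (c * b), f t =
      ENNReal.ofReal c * ∫⁻ x in Icc (-b) b, f (c * x) := by
  have h1 : (fun x : ℝ => c * x) '' Icc (-b) b = Icc (-(c * b)) (c * b) := by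
    rw [image_mul_left_Icc' hc, mul_neg]
  have h2 : ∀ x : ℝ, HasDerivAt (fun x : ℝ => c * x) c x := fun x => by
    simpa using (hasDerivAt_id x).const_mul c
  rw [← h1, lintegral_image_eq_lintegral_abs_deriv_mul measurableSet_Icc
    (fun x _ => (h2 x).hasDerivWithinAt) (fun x _ y _ h => mul_left_cancel₀ hc.ne' h),
    abs_of_pos hc, lintegral_const_mul' _ _ ENNReal.ofReal_ne_top]

/-- the substitution `x = e^y` -/
theorem lint_exp (f : ℝ → ℝ≥0∞) :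
    ∫⁻ y, f (Real.exp y) = ∫⁻ x in Ioi (0 : ℝ), f x * ENNReal.ofReal x⁻¹ := by
  have h1 : Real.exp '' univ = Ioi 0 := by
    rw [image_univ, Real.range_exp]
  rw [← h1, lintegral_image_eq_lintegral_abs_deriv_mul MeasurableSet.univ
    (fun x _ => (Real.hasDerivAt_exp x).hasDerivWithinAt) (Real.exp_injective.injOn),
    Measure.restrict_univ]
  refine lintegral_congr fun y => ?_
  rw [abs_of_pos (Real.exp_pos y), mul_left_comm, ← ENNReal.ofReal_mul (Real.exp_pos y).le,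
    mul_inv_cancel₀ (Real.exp_pos y).ne', ENNReal.ofReal_one, mul_one]

/-- Gallagher's inequality for Dirichlet polynomials with positive frequencies `ν n` -/
theorem gallagher_dir {ι : Type} (S : Finset ι) (a : ι → ℂ) (ν : ι → ℝ) (δ : ℝ) (hδ : 0 < δ)
    (hν : ∀ n ∈ S, 0 < ν n) :
    ∫⁻ t in Icc (-(Real.pi / δ)) (Real.pi / δ),
      ‖∑ n ∈ S, a n * ((ν n : ℝ) : ℂ) ^ (-(t : ℂ) * Complex.I)‖ₑ ^ 2 ≤
    ENNReal.ofReal (Real.pi ^ 3 / (2 * δ ^ 2)) *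
      ∫⁻ x in Ioi (0 : ℝ), ‖∑ n ∈ S, if x < ν n ∧ ν n ≤ x * Real.exp δ then a n else 0‖ₑ ^ 2 *
        ENNReal.ofReal x⁻¹ := by
  have hpi := Real.pi_pos
  have h1 := lint_scale (fun t : ℝ =>
    ‖∑ n ∈ S, a n * ((ν n : ℝ) : ℂ) ^ (-(t : ℂ) * Complex.I)‖ₑ ^ 2) (2 * Real.pi) (1 / (2 * δ))
    (by positivity)
  rw [show 2 * Real.pi * (1 / (2 * δ)) = Real.pi / δ by field_simp] at h1
  rw [h1]
  have h2 := gallagher S a (fun n => Real.log (ν n)) δ hδ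
  have h3 : ∀ ξ : ℝ, (∑ n ∈ S, a n * ((ν n : ℝ) : ℂ) ^
      (-((2 * Real.pi * ξ : ℝ) : ℂ) * Complex.I)) =
      ∑ n ∈ S, a n * Complex.exp (-(2 * Real.pi * Real.log (ν n) * ξ : ℝ) * Complex.I) := by
    intro ξ
    refine Finset.sum_congr rfl fun n hn => ?_
    rw [Complex.cpow_def_of_ne_zero (by exact_mod_cast (hν n hn).ne'),
      ← Complex.ofReal_log (hν n hn).le]
    congr 2
    push_cast
    ring
  have h4 : ∫⁻ ξ in Icc (-(1 / (2 * δ))) (1 / (2 * δ)),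
      ‖∑ n ∈ S, a n * ((ν n : ℝ) : ℂ) ^ (-((2 * Real.pi * ξ : ℝ) : ℂ) * Complex.I)‖ₑ ^ 2 ≤
      ENNReal.ofReal ((Real.pi / (2 * δ)) ^ 2) * ∫⁻ x, ‖∑ n ∈ S,
        if x < Real.log (ν n) ∧ Real.log (ν n) ≤ x + δ then a n else 0‖ₑ ^ 2 := by
    refine le_trans (le_of_eq (lintegral_congr fun ξ => ?_)) h2
    rw [h3]
  have h5 : ∫⁻ x, ‖∑ n ∈ S,
        if x < Real.log (ν n) ∧ Real.log (ν n) ≤ x + δ then a n else 0‖ₑ ^ 2 =
      ∫⁻ x in Ioi (0 : ℝ), ‖∑ n ∈ S, if x < ν n ∧ ν n ≤ x * Real.exp δ then a n else 0‖ₑ ^ 2 *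
        ENNReal.ofReal x⁻¹ := by
    rw [← lint_exp (fun x => ‖∑ n ∈ S,
      if x < ν n ∧ ν n ≤ x * Real.exp δ then a n else 0‖ₑ ^ 2)]
    refine lintegral_congr fun y => ?_
    congr 2
    refine Finset.sum_congr rfl fun n hn => ?_
    refine if_congr ?_ rfl rfl
    rw [Real.lt_log_iff_exp_lt (hν n hn), Real.log_le_iff_le_exp (hν n hn), Real.exp_add]
  rw [h5] at h4
  refine (mul_le_mul_right h4 _).trans (le_of_eq ?_)
  rw [← mul_assoc, ← ENNReal.ofReal_mul (by positivity)]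
  congr 2
  field_simp

end Pool.Agent.H14.GB
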