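import Pool.Agent.H19.LS.PLE

/-!
# Gallagher's inequality for finite exponential sums
-/

set_option autoImplicit false

open MeasureTheory Set
open scoped ENNReal FourierTransform

namespace Pool.Agent.H14.GB

open Pool.Agent.H19.LS

/-- the window function of one frequency -/
noncomputable def win (lam δ : ℝ) (x : ℝ) : ℂ := (Ico (lam - δ) lam).indicator (fun _ => 1) x

theorem win_int (lam δ : ℝ) : Integrable (win lam δ) := by
  unfold win
  exact (integrable_indicator_iff measurableSet_Ico).2 (integrableOn_const (by simp) (by simp))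

theorem win_two (lam δ : ℝ) : MemLp (win lam δ) 2 := by
  unfold win
  exact memLp_indicator_const 2 measurableSet_Ico 1 (Or.inr (by simp))

theorem win_int_eq (l δ ξ : ℝ) (hδ : 0 < δ) : 𝓕 (win l δ) ξ =
    ∫ v in (l - δ)..l, Complex.exp (-(2 * Real.pi * v * ξ : ℝ) * Complex.I) := by
  rw [Real.fourier_real_eq_integral_exp_smul]
  rw [intervalIntegral.integral_of_le (by linarith), ← integral_Ico_eq_integral_Ioc,
    ← integral_indicator measurableSet_Ico]
  refine integral_congr_ae (Filter.Eventually.of_forall fun v => ?_)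
  unfold win
  by_cases hv : v ∈ Ico (l - δ) l
  · simp only [indicator_of_mem hv]
    simp
  · simp only [indicator_of_notMem hv]
    simp

theorem win_fourier (lam δ ξ : ℝ) (hδ : 0 < δ) :
    𝓕 (win lam δ) ξ = Complex.exp (-(2 * Real.pi * lam * ξ : ℝ) * Complex.I) *
      𝓕 (win 0 δ) ξ := by
  rw [win_int_eq _ _ _ hδ, win_int_eq _ _ _ hδ]
  have h2 := intervalIntegral.integral_comp_add_right (a := -δ) (b := 0)
    (fun v : ℝ => Complex.exp (-(2 * Real.pi * v * ξ : ℝ) * Complex.I)) lam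
  rw [zero_sub, show lam - δ = -δ + lam by ring]
  rw [zero_add] at h2
  rw [← h2, ← intervalIntegral.integral_const_mul]
  refine intervalIntegral.integral_congr fun v _ => ?_
  rw [← Complex.exp_add]
  congr 1
  push_cast
  ring

/-- lower bound of the transform of the window -/
theorem win_low (δ ξ : ℝ) (hδ : 0 < δ) (hξ : |ξ| ≤ 1 / (2 * δ)) :
    2 * δ / Real.pi ≤ ‖𝓕 (win 0 δ) ξ‖ := by
  rw [win_int_eq _ _ _ hδ, zero_sub]
  have hpi := Real.pi_pos
  by_cases h0 : ξ = 0
  · subst h0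
    simp
    rw [abs_of_pos hδ, div_le_iff₀ hpi]
    nlinarith [Real.pi_gt_three]
  have hc : (-(2 * Real.pi * ξ : ℝ) * Complex.I : ℂ) ≠ 0 := by
    refine mul_ne_zero (neg_ne_zero.2 ?_) Complex.I_ne_zero
    have : (2 * Real.pi * ξ : ℝ) ≠ 0 := by positivity
    exact_mod_cast this
  have h1 : ∫ v in (-δ)..0, Complex.exp (-(2 * Real.pi * v * ξ : ℝ) * Complex.I) =
      (Complex.exp ((-(2 * Real.pi * ξ : ℝ) * Complex.I) * ((0 : ℝ) : ℂ)) -
        Complex.exp ((-(2 * Real.pi * ξ : ℝ) * Complex.I) * ((-δ : ℝ) : ℂ))) /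
          (-(2 * Real.pi * ξ : ℝ) * Complex.I) := by
    rw [← integral_exp_mul_complex hc]
    refine intervalIntegral.integral_congr fun v _ => ?_
    congr 1
    push_cast
    ring
  rw [h1, norm_div, norm_mul, Complex.norm_I, mul_one, norm_neg, Complex.norm_real,
    Real.norm_eq_abs, Complex.ofReal_zero, mul_zero, Complex.exp_zero]
  have h2 : ‖(1 : ℂ) - Complex.exp ((-(2 * Real.pi * ξ : ℝ) * Complex.I) * ((-δ : ℝ) : ℂ))‖ =
      2 * |Real.sin (Real.pi * ξ * δ)| := by
    rw [norm_sub_rev]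
    have e : (-(2 * Real.pi * ξ : ℝ) * Complex.I) * ((-δ : ℝ) : ℂ) =
        Complex.I * ((2 * (Real.pi * ξ * δ) : ℝ) : ℂ) := by
      push_cast
      ring
    rw [e, Complex.norm_exp_I_mul_ofReal_sub_one, norm_mul, Real.norm_eq_abs, Real.norm_eq_abs,
      abs_two, mul_div_cancel_left₀ _ (two_ne_zero)]
  have h3 : |Real.pi * ξ * δ| ≤ Real.pi / 2 := by
    rw [abs_mul, abs_mul, abs_of_pos hpi, abs_of_pos hδ]
    have h4 : |ξ| * δ ≤ 1 / 2 := by
      calc |ξ| * δ ≤ 1 / (2 * δ) * δ := mul_le_mul_of_nonneg_right hξ hδ.le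
        _ = 1 / 2 := by field_simp
    nlinarith
  have h4 := Real.mul_abs_le_abs_sin h3
  rw [h2, abs_mul, abs_mul, abs_two, abs_of_pos hpi, le_div_iff₀ (by positivity)]
  rw [abs_mul, abs_mul, abs_of_pos hpi, abs_of_pos hδ] at h4
  refine le_trans (le_of_eq ?_) (mul_le_mul_of_nonneg_left h4 (by norm_num : (0 : ℝ) ≤ 2))
  field_simp

/-- Gallagher's inequality -/
theorem gallagher {ι : Type} (S : Finset ι) (a : ι → ℂ) (lam : ι → ℝ) (δ : ℝ) (hδ : 0 < δ) :
    ∫⁻ ξ in Icc (-(1 / (2 * δ))) (1 / (2 * δ)),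
      ‖∑ n ∈ S, a n * Complex.exp (-(2 * Real.pi * lam n * ξ : ℝ) * Complex.I)‖ₑ ^ 2 ≤
    ENNReal.ofReal ((Real.pi / (2 * δ)) ^ 2) *
      ∫⁻ x, ‖∑ n ∈ S, if x < lam n ∧ lam n ≤ x + δ then a n else 0‖ₑ ^ 2 := by
  have hpi := Real.pi_pos
  obtain ⟨w, hw⟩ : ∃ w : ℝ → ℂ, w = ∑ n ∈ S, fun x => a n * win (lam n) δ x := ⟨_, rfl⟩
  have hwx : ∀ x, w x = ∑ n ∈ S, if x < lam n ∧ lam n ≤ x + δ then a n else 0 := by
    intro x
    rw [hw, Finset.sum_apply]
    refine Finset.sum_congr rfl fun n _ => ?_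
    unfold win
    by_cases h : x < lam n ∧ lam n ≤ x + δ
    · rw [if_pos h, indicator_of_mem (by constructor <;> linarith [h.1, h.2]), mul_one]
    · rw [if_neg h, indicator_of_notMem (fun h' => h ⟨h'.2, by linarith [h'.1]⟩), mul_zero]
  have hi : Integrable w := by
    rw [hw]
    exact integrable_finsetSum' _ fun n _ => (win_int (lam n) δ).const_mul (a n)
  have h2 : MemLp w 2 := by
    rw [hw]
    exact memLp_finsetSum' _ fun n _ => (win_two (lam n) δ).const_mul (a n)
  have hF : ∀ ξ, 𝓕 w ξ =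
      (∑ n ∈ S, a n * Complex.exp (-(2 * Real.pi * lam n * ξ : ℝ) * Complex.I)) *
        𝓕 (win 0 δ) ξ := by
    intro ξ
    rw [Finset.sum_mul, Real.fourier_real_eq_integral_exp_smul]
    have hb : ∀ n, Integrable fun v : ℝ =>
        Complex.exp (↑(-2 * Real.pi * v * ξ) * Complex.I) • win (lam n) δ v := by
      intro n
      refine (win_int (lam n) δ).norm.mono' ?_ (Filter.Eventually.of_forall fun v => ?_)
      · have hc : Continuous fun v : ℝ =>
            Complex.exp (((-2 * Real.pi * v * ξ : ℝ) : ℂ) * Complex.I) := by fun_prop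
        exact hc.aestronglyMeasurable.smul (win_int (lam n) δ).aestronglyMeasurable
      · rw [norm_smul, Complex.norm_exp_ofReal_mul_I, one_mul]
    have e1 : ∀ v : ℝ, Complex.exp (↑(-2 * Real.pi * v * ξ) * Complex.I) • w v =
        ∑ n ∈ S, a n * (Complex.exp (↑(-2 * Real.pi * v * ξ) * Complex.I) •
          win (lam n) δ v) := by
      intro v
      rw [hw, Finset.sum_apply, Finset.smul_sum]
      refine Finset.sum_congr rfl fun n _ => ?_
      rw [smul_eq_mul, smul_eq_mul]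
      ring
    rw [integral_congr_ae (Filter.Eventually.of_forall e1),
      integral_finsetSum _ fun n _ => (hb n).const_mul (a n)]
    refine Finset.sum_congr rfl fun n _ => ?_
    rw [integral_const_mul, ← Real.fourier_real_eq_integral_exp_smul, win_fourier _ _ _ hδ]
    exact (mul_assoc _ _ _).symm
  have hP := plancherelE w hi h2
  have e1 : ∫⁻ x, ‖∑ n ∈ S, if x < lam n ∧ lam n ≤ x + δ then a n else 0‖ₑ ^ 2 =
      ∫⁻ x, ‖w x‖ₑ ^ 2 := lintegral_congr fun x => by rw [hwx]
  rw [e1, ← hP]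
  have hm : Measurable fun ξ => ‖𝓕 w ξ‖ₑ ^ 2 := by
    have := (fourier_cont w hi).measurable
    fun_prop
  rw [← lintegral_const_mul _ hm]
  refine (setLIntegral_mono' measurableSet_Icc fun ξ hξ => ?_).trans
    (setLIntegral_le_lintegral _ _)
  have h3 := win_low δ ξ hδ (abs_le.2 hξ)
  rw [hF, enorm_mul, mul_pow, mul_left_comm]
  refine le_mul_of_one_le_right (by positivity) ?_
  rw [← ofReal_norm, ← ENNReal.ofReal_pow (norm_nonneg _), ← ENNReal.ofReal_mul (by positivity),
    ← mul_pow, ← ENNReal.ofReal_one]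
  refine ENNReal.ofReal_le_ofReal (one_le_pow₀ ?_)
  calc (1 : ℝ) = Real.pi / (2 * δ) * (2 * δ / Real.pi) := by field_simp
    _ ≤ _ := mul_le_mul_of_nonneg_left h3 (by positivity)

end Pool.Agent.H14.GB
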